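import Pool.Agent.W243.TD.Stm
import Pool.Agent.H335R2.Obs.Obs2
import Pool.Agent.W254.HP.LA2

/-! Project TD, part INEQ1: application of the obstruction theorem with derivatives. -/

set_option autoImplicit false

namespace Pool.Agent.W729.TD

open Finset Module
open Pool.Agent.H335R2.Obs (kSpan codim_ge finrank_kSpan)
open Pool.Agent.W243.TD

/-- the linear map `m ↦ γ m` -/
noncomputable def gmap {w b : ℕ} (γ : Fin w → Fin b → ℂ) : (Fin b → ℂ) →ₗ[ℂ] (Fin w → ℂ) where
  toFun := fun m i => ∑ j, γ i j * m j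
  map_add' := by
    intro m m'; funext i
    simp only [Pi.add_apply, mul_add, Finset.sum_add_distrib]
  map_smul' := by
    intro r m; funext i
    simp only [Pi.smul_apply, smul_eq_mul, RingHom.id_apply, Finset.mul_sum]
    apply Finset.sum_congr rfl; intro j _; ring

theorem gmap_apply {w b : ℕ} (γ : Fin w → Fin b → ℂ) (m : Fin b → ℂ) (i : Fin w) :
    gmap γ m i = ∑ j, γ i j * m j := rfl

theorem ineq1 : S_obs → S_ineq1 := by
  classical
  intro hobs θ hθ K hK d l r V z hr hrd hzV hexp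
  obtain ⟨r', e, v, hr', hvV, hdual, hexpand⟩ := Pool.Agent.W254.HP.pivot_basis V
  obtain rfl : r' = r := by omega
  obtain ⟨c, rfl⟩ : ∃ c, d = r' + c := ⟨d - r', by omega⟩
  have hc : 1 ≤ c := by omega
  obtain ⟨k1, hk1⟩ : ∃ k1, k1 = 3 * r' + 4 := ⟨_, rfl⟩
  obtain ⟨m, hm⟩ : ∃ m, m = (r' + c) * k1 + 1 := ⟨_, rfl⟩
  set γ : Fin r' → Fin (r' + c) → ℂ := fun k j => ((v k j : K) : ℂ) with hγ
  set ω : Fin r' → Fin l → ℂ := fun k p => ((z p (e k) : K) : ℂ) with hω
  have hsum : ∀ j p, ∑ k, γ k j * ω k p = ((z p j : K) : ℂ) := by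
    intro j p
    rw [hexpand (z p) (hzV p) j]
    simp only [hγ, hω]
    push_cast
    apply Finset.sum_congr rfl; intro k _; ring
  obtain ⟨Af, Rm, W0, G0, hA, hne, hW0, hG0, hineq⟩ := hobs θ hθ r' (r' + c) l univ 1 le_rfl γ ω
    (Or.inr fun i j => hK _) (fun i _ p => hK _) (fun j p => by rw [hsum]; exact hexp p j)
    ((r' + c) * m + k1) (r' * m + k1) (c * m) (by ring) (by
      rw [Finset.card_univ, Fintype.card_fin]
      have h1 : k1 ≤ c * k1 := Nat.le_mul_of_pos_left _ hc
      nlinarith)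
  have hσ : 0 < c * m := Nat.mul_pos hc (by omega)
  set N : Submodule ℂ (Fin (r' + c) → ℂ) := kSpan ℂ Rm ⊓ Submodule.comap (gmap γ) Af with hN
  have hkey := codim_ge γ Af Rm W0 hW0 N (fun x hx h => ⟨hx, h⟩)
  obtain ⟨d0, hd0⟩ : ∃ x, x = finrank ℂ Af := ⟨_, rfl⟩
  obtain ⟨d1, hd1⟩ : ∃ x, x = finrank ℤ Rm := ⟨_, rfl⟩
  obtain ⟨wc, hwc⟩ : ∃ x, x = r' - finrank ℂ W0 := ⟨_, rfl⟩
  obtain ⟨bb, hbb⟩ : ∃ x, x = l - finrank ℤ G0 := ⟨_, rfl⟩
  obtain ⟨ν, hν⟩ : ∃ x, x = finrank ℂ N := ⟨_, rfl⟩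
  rw [← hd0, ← hd1, ← hwc, ← hν] at hkey
  rw [← hd0, ← hd1, ← hwc, ← hbb, one_mul] at hineq
  have hle : wc * ((r' + c) * m + k1) + bb * (c * m) ≤
      d0 * ((r' + c) * m + k1) + d1 * (r' * m + k1) := by
    rcases hineq with h | h
    · exact h.le
    · exact h.1.le
  have hfin : (d1 + bb) * (c * m) ≤ ν * ((r' + c) * m + k1) := by
    have h1 : (d0 + d1) * ((r' + c) * m + k1) ≤ (wc + ν) * ((r' + c) * m + k1) :=
      Nat.mul_le_mul_right _ hkey
    nlinarith
  have hν1 : 1 ≤ ν := by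
    by_contra hcon
    have h0 : ν = 0 := by omega
    rw [h0, zero_mul] at hfin
    have h1 : d1 + bb = 0 := by
      rcases Nat.mul_eq_zero.mp (Nat.le_zero.mp hfin) with h | h
      · exact h
      · omega
    have hd1' : d1 = 0 := by omega
    have hbb' : bb = 0 := by omega
    have hd0' : d0 = 0 := by
      rcases hineq with h | ⟨h, h', h''⟩
      · exfalso
        rw [hd1', hbb', zero_mul, zero_mul, add_zero, add_zero] at h
        have h3 : wc < d0 := lt_of_mul_lt_mul_right h (Nat.zero_le _)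
        omega
      · rcases h' with h' | h'
        · omega
        · omega
    apply hne
    constructor
    · exact Submodule.finrank_eq_zero.mp (hd0.symm.trans hd0')
    · have h2 := finrank_kSpan ℂ Rm
      rw [← hd1, hd1'] at h2
      have h3 := Submodule.finrank_eq_zero.mp h2
      rw [eq_bot_iff]
      intro ρ hρ
      have h4 : (fun j => ((ρ j : ℤ) : ℂ)) ∈ kSpan ℂ Rm := Submodule.subset_span ⟨ρ, hρ, rfl⟩
      rw [h3, Submodule.mem_bot] at h4
      rw [AddSubgroup.mem_bot]
      funext j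
      have := congrFun h4 j
      simpa using this
  have hνd : ν ≤ r' + c := by
    have := Submodule.finrank_le N
    rw [finrank_fintype_fun_eq_card, Fintype.card_fin] at this
    omega
  refine ⟨N, Rm, G0, inf_le_left, by rw [← hν]; exact hν1, ?_, ?_⟩
  · intro s hs
    have h1 := (hG0 s).mp hs
    constructor
    · intro α hα
      have h2 := h1.1 (gmap γ α) hα.2
      rw [← h2]
      have h3 : ∀ i, gmap γ α i * ∑ p, ω i p * (s p : ℂ) =
          ∑ j, ∑ p, α j * ((s p : ℂ) * (γ i j * ω i p)) := by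
        intro i
        rw [gmap_apply, Finset.sum_mul]
        apply Finset.sum_congr rfl; intro j _
        rw [Finset.mul_sum]
        apply Finset.sum_congr rfl; intro p _
        ring
      rw [Finset.sum_congr rfl (fun i _ => h3 i), Finset.sum_comm]
      apply Finset.sum_congr rfl; intro j _
      rw [Finset.sum_comm]
      push_cast
      rw [Finset.mul_sum]
      apply Finset.sum_congr rfl; intro p _
      rw [← hsum j p, Finset.mul_sum, Finset.mul_sum]
    · intro μ hμ
      obtain ⟨n, hn⟩ := h1.2 μ hμ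
      refine ⟨n, ?_⟩
      rw [← hn]
      push_cast
      apply Finset.sum_congr rfl; intro j _
      rw [Finset.mul_sum]
      apply Finset.sum_congr rfl; intro p _
      rw [hsum j p]
      ring
  · rw [← hν, ← hd1, ← hbb, Nat.add_sub_cancel_left]
    by_contra hcon
    have h1 : ν * (r' + c) + 1 ≤ (d1 + bb) * c := by omega
    have h2 : (ν * (r' + c) + 1) * m ≤ (d1 + bb) * c * m := Nat.mul_le_mul_right _ h1
    have h3 : ν * k1 ≤ (r' + c) * k1 := Nat.mul_le_mul_right _ hνd
    nlinarith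

end Pool.Agent.W729.TD
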